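import Mathlib
import Pool.Agent.Helper38.RT.Defs

/-!
# A list machine is simulated by a realtime multitape Turing machine
-/

set_option autoImplicit false

namespace Pool.Agent.Helper10.RT

open Pool.Agent.Helper38.RT

section moves

variable {S Γ N : Type}

theorem lmove_local (f : S → (N → Option Γ) → S × (N → List Γ)) (s : S) (b r : N → List Γ)
    (h : ∀ i, b i ≠ [] ∨ r i = []) :
    lmove f (s, fun i => b i ++ r i) =
      ((lmove f (s, b)).1, fun i => (lmove f (s, b)).2 i ++ r i) := by
  have h1 : (fun i => (b i ++ r i).head?) = fun i => (b i).head? := by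
    funext i
    rcases h i with h | h
    · obtain ⟨y, l, hy⟩ := List.exists_cons_of_ne_nil h
      rw [hy]; rfl
    · rw [h, List.append_nil]
  have h2 : ∀ i, (b i ++ r i).tail = (b i).tail ++ r i := by
    intro i
    rcases h i with h | h
    · obtain ⟨y, l, hy⟩ := List.exists_cons_of_ne_nil h
      rw [hy]; rfl
    · rw [h, List.append_nil, List.append_nil]
  unfold lmove
  simp only [h1, h2, List.append_assoc]

theorem lmove_length_ge (f : S → (N → Option Γ) → S × (N → List Γ)) (x : S × (N → List Γ)) (i : N) :
    (x.2 i).length - 1 ≤ ((lmove f x).2 i).length := by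
  unfold lmove
  simp only [List.length_append, List.length_tail]
  omega

theorem lmove_length_le (f : S → (N → Option Γ) → S × (N → List Γ))
    (hf : ∀ s t i, ((f s t).2 i).length ≤ 2) (x : S × (N → List Γ)) (i : N) :
    ((lmove f x).2 i).length ≤ max (x.2 i).length 1 + 1 := by
  have := hf x.1 (fun i => (x.2 i).head?) i
  unfold lmove
  simp only [List.length_append, List.length_tail]
  omega

theorem iter_local (f : S → (N → Option Γ) → S × (N → List Γ)) (r : N → List Γ) (c : ℕ) :
    ∀ (s : S) (b : N → List Γ), (∀ i, c ≤ (b i).length ∨ r i = []) →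
    (lmove f)^[c] (s, fun i => b i ++ r i) =
      (((lmove f)^[c] (s, b)).1, fun i => ((lmove f)^[c] (s, b)).2 i ++ r i) := by
  induction c with
  | zero => intro s b _; rfl
  | succ c ih =>
    intro s b h
    rw [Function.iterate_succ_apply, Function.iterate_succ_apply, lmove_local]
    · have h1 := ih (lmove f (s, b)).1 (lmove f (s, b)).2 (by
        intro i
        rcases h i with h | h
        · left
          have := lmove_length_ge f (s, b) i
          simp only at this
          omega
        · exact Or.inr h)
      exact h1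
    · intro i
      rcases h i with h | h
      · left
        intro h0
        rw [h0] at h
        simp at h
      · exact Or.inr h

theorem iter_length_le (f : S → (N → Option Γ) → S × (N → List Γ))
    (hf : ∀ s t i, ((f s t).2 i).length ≤ 2) (c : ℕ) :
    ∀ (x : S × (N → List Γ)) (i : N),
      (((lmove f)^[c] x).2 i).length ≤ max (x.2 i).length 1 + c := by
  induction c with
  | zero => intro x i; simp
  | succ c ih =>
    intro x i
    rw [Function.iterate_succ_apply]
    have h1 := ih (lmove f x) i
    have h2 := lmove_length_le f hf x i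
    omega

end moves

variable {A : Type} (M : LM A)

theorem step_local (s : M.S) (a : A) (b r : M.N → List M.Γ)
    (h : ∀ i, M.c + 1 ≤ (b i).length ∨ r i = []) :
    M.step (s, fun i => b i ++ r i) a =
      ((M.step (s, b) a).1, fun i => (M.step (s, b) a).2 i ++ r i) := by
  unfold LM.step
  rw [lmove_local]
  · exact iter_local M.mic r M.c _ _ (by
      intro i
      rcases h i with h | h
      · left
        have := lmove_length_ge (M.inp a) (s, b) i
        simp only at this
        omega
      · exact Or.inr h)
  · intro i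
    rcases h i with h | h
    · left
      intro h0
      rw [h0] at h
      simp at h
    · exact Or.inr h

theorem step_length_le (x : M.S × (M.N → List M.Γ)) (a : A) (i : M.N) :
    ((M.step x a).2 i).length ≤ max (x.2 i).length 1 + (M.c + 1) := by
  unfold LM.step
  have h1 := iter_length_le M.mic M.hmic M.c (lmove (M.inp a) x) i
  have h2 := lmove_length_le (M.inp a) (M.hinp a) x i
  omega

/-- lists of bounded length -/
abbrev BL (α : Type) (n : ℕ) : Type := {l : List α // l.length ≤ n}

instance finBL (α : Type) [Finite α] (n : ℕ) : Finite (BL α n) :=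
  (List.finite_length_le α n).to_subtype

/-- clipping -/
def clip {α : Type} (n : ℕ) (l : List α) : BL α n := ⟨l.take n, by simp⟩

theorem clip_val {α : Type} {n : ℕ} {l : List α} (h : l.length ≤ n) : (clip n l).1 = l := by
  unfold clip
  simp only
  exact List.take_of_length_le h

/-- the buffers after the reading -/
def bufr {k : ℕ} (D : ℕ) {Γ : Type} (q : Fin k → BL Γ (3 * D) × Bool) (r : Fin k → BL Γ D)
    (i : Fin k) : List Γ :=
  if (q i).2 then (q i).1.1 ++ (r i).1 else (q i).1.1

/-- the new buffer -/
def nbuf {Γ : Type} (D : ℕ) (b : List Γ) : BL Γ (3 * D) × Bool :=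
  if 3 * D ≤ b.length then (clip (3 * D) (b.take (b.length - D)), false)
  else if b.length < 2 * D then (clip (3 * D) b, true)
  else (clip (3 * D) b, false)

/-- the new cell and the head movement -/
def ncell {Γ : Type} (D : ℕ) (b : List Γ) (r : BL Γ D) : BL Γ D × Mv :=
  if 3 * D ≤ b.length then (clip D (b.drop (b.length - D)), Mv.right)
  else if b.length < 2 * D then (r, Mv.left)
  else (r, Mv.stay)

/-- the machine -/
noncomputable def tm (k : ℕ) (e : M.N ≃ Fin k) : RTM A where
  k := k
  Γ := BL M.Γ (M.c + 1)
  Q := M.S × (Fin k → BL M.Γ (3 * (M.c + 1)) × Bool)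
  finΓ := by
    have := M.finΓ
    exact finBL _ _
  finQ := by
    have := M.finΓ
    have := M.finS
    infer_instance
  blank := clip _ []
  start := (M.start, fun _ => (clip _ [], false))
  acc q := M.acc q.1
  δ q a r :=
    let x := M.step (q.1, fun n => bufr (M.c + 1) q.2 r (e n)) a
    ((x.1, fun i => nbuf (M.c + 1) (x.2 (e.symm i))),
      fun i => ncell (M.c + 1) (x.2 (e.symm i)) (r i))

/-- the invariant for one tape -/
def InvT {Γ : Type} (D : ℕ) (l : List Γ) (buf : BL Γ (3 * D) × Bool) (pos : ℤ) (tape : ℤ → BL Γ D) :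
    Prop :=
  ∃ bs : List (List Γ), (∀ b ∈ bs, b.length = D) ∧ l = buf.1.1 ++ bs.flatten ∧
    ((buf.2 = true ∧ buf.1.1.length < 2 * D ∧ ∀ j : ℕ, (tape (pos - j)).1 = bs.getD j []) ∨
     (buf.2 = false ∧ (D ≤ buf.1.1.length ∨ bs = []) ∧
       ∀ j : ℕ, (tape (pos - 1 - j)).1 = bs.getD j []))

/-- the situation after the reading -/
theorem read_inv {Γ : Type} (D : ℕ) (l : List Γ) (buf : BL Γ (3 * D) × Bool) (pos : ℤ)
    (tape : ℤ → BL Γ D) (h : InvT D l buf pos tape) :
    ∃ (b : List Γ) (bs : List (List Γ)),
      b = (if buf.2 then buf.1.1 ++ (tape pos).1 else buf.1.1) ∧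
      (∀ b ∈ bs, b.length = D) ∧ l = b ++ bs.flatten ∧ b.length ≤ 3 * D ∧
      (D ≤ b.length ∨ bs = []) ∧ ∀ j : ℕ, (tape (pos - 1 - j)).1 = bs.getD j [] := by
  obtain ⟨bs, h1, h2, h3⟩ := h
  rcases h3 with ⟨h3, h4, h5⟩ | ⟨h3, h4, h5⟩
  · have h6 : (tape pos).1 = bs.getD 0 [] := by
      have := h5 0
      simpa using this
    refine ⟨buf.1.1 ++ (tape pos).1, bs.tail, by simp [h3], ?_, ?_, ?_, ?_, ?_⟩
    · intro b hb
      exact h1 b (List.mem_of_mem_tail hb)
    · rw [h2, h6]
      cases bs with
      | nil => simp
      | cons b bs => simp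
    · rw [List.length_append, h6]
      cases bs with
      | nil => simp; omega
      | cons b bs =>
        have := h1 b (by simp)
        simp
        omega
    · cases bs with
      | nil => right; rfl
      | cons b bs =>
        left
        have := h1 b (by simp)
        rw [List.length_append, h6]
        simp
        omega
    · intro j
      have := h5 (j + 1)
      have e1 : pos - ((j + 1 : ℕ) : ℤ) = pos - 1 - j := by push_cast; ring
      rw [e1] at this
      rw [this]
      cases bs with
      | nil => simp
      | cons b bs => simp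
  · refine ⟨buf.1.1, bs, by simp [h3], h1, h2, buf.1.2, h4, h5⟩

/-- writing -/
theorem write_inv {Γ : Type} (D : ℕ) (hD : 0 < D) (b : List Γ) (bs : List (List Γ)) (pos : ℤ)
    (tape : ℤ → BL Γ D) (h1 : ∀ b ∈ bs, b.length = D) (h2 : b.length ≤ 4 * D)
    (h3 : ∀ j : ℕ, (tape (pos - 1 - j)).1 = bs.getD j []) :
    InvT D (b ++ bs.flatten) (nbuf D b) (pos + (ncell D b (tape pos)).2.toInt)
      (Function.update tape pos (ncell D b (tape pos)).1) := by
  by_cases hb : 3 * D ≤ b.length
  · have e1 : nbuf D b = (clip (3 * D) (b.take (b.length - D)), false) := if_pos hb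
    have e2 : ncell D b (tape pos) = (clip D (b.drop (b.length - D)), Mv.right) := if_pos hb
    have e3 : (clip (3 * D) (b.take (b.length - D))).1 = b.take (b.length - D) :=
      clip_val (by rw [List.length_take]; omega)
    have e4 : (clip D (b.drop (b.length - D))).1 = b.drop (b.length - D) :=
      clip_val (by rw [List.length_drop]; omega)
    rw [e1, e2]
    refine ⟨b.drop (b.length - D) :: bs, ?_, ?_, Or.inr ⟨rfl, Or.inl ?_, ?_⟩⟩
    · intro x hx
      rcases List.mem_cons.1 hx with rfl | hx
      · rw [List.length_drop]; omega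
      · exact h1 x hx
    · simp only [e3, List.flatten_cons, ← List.append_assoc, List.take_append_drop]
    · simp only [e3, List.length_take]; omega
    · intro j
      simp only [Mv.toInt]
      cases j with
      | zero =>
        simp only [Nat.cast_zero, sub_zero, add_sub_cancel_right, Function.update_self,
          List.getD_cons_zero]
        exact e4
      | succ j =>
        have e5 : pos + 1 - 1 - ((j + 1 : ℕ) : ℤ) = pos - 1 - j := by push_cast; ring
        rw [e5, Function.update_of_ne (by omega), List.getD_cons_succ]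
        exact h3 j
  · by_cases hb2 : b.length < 2 * D
    · have e1 : nbuf D b = (clip (3 * D) b, true) := by
        unfold nbuf; rw [if_neg hb, if_pos hb2]
      have e2 : ncell D b (tape pos) = (tape pos, Mv.left) := by
        unfold ncell; rw [if_neg hb, if_pos hb2]
      have e3 : (clip (3 * D) b).1 = b := clip_val (by omega)
      rw [e1, e2]
      refine ⟨bs, h1, ?_, Or.inl ⟨rfl, ?_, ?_⟩⟩
      · simp only [e3]
      · simp only [e3]; exact hb2
      · intro j
        simp only [Mv.toInt, Function.update_eq_self]
        have e5 : pos + -1 - (j : ℤ) = pos - 1 - j := by ring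
        rw [e5]
        exact h3 j
    · have e1 : nbuf D b = (clip (3 * D) b, false) := by
        unfold nbuf; rw [if_neg hb, if_neg hb2]
      have e2 : ncell D b (tape pos) = (tape pos, Mv.stay) := by
        unfold ncell; rw [if_neg hb, if_neg hb2]
      have e3 : (clip (3 * D) b).1 = b := clip_val (by omega)
      rw [e1, e2]
      refine ⟨bs, h1, ?_, Or.inr ⟨rfl, Or.inl ?_, ?_⟩⟩
      · simp only [e3]
      · simp only [e3]; omega
      · intro j
        simp only [Mv.toInt, Function.update_eq_self, add_zero]
        exact h3 j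

/-- the invariant -/
def Inv (k : ℕ) (e : M.N ≃ Fin k) (c : (tm M k e).Cfg) (x : M.S × (M.N → List M.Γ)) : Prop :=
  c.q.1 = x.1 ∧ ∀ i : Fin k, InvT (M.c + 1) (x.2 (e.symm i)) (c.q.2 i) (c.pos i) (c.tape i)

theorem inv_init (k : ℕ) (e : M.N ≃ Fin k) :
    Inv M k e (tm M k e).init (M.start, fun _ => []) := by
  refine ⟨rfl, fun i => ⟨[], by simp, ?_, Or.inr ⟨rfl, Or.inr rfl, ?_⟩⟩⟩
  · show [] = (clip _ []).1 ++ _
    rw [clip_val (by simp)]
    simp
  · intro j
    show (clip _ []).1 = _
    rw [clip_val (by simp)]
    simp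

theorem inv_step (k : ℕ) (e : M.N ≃ Fin k) (c : (tm M k e).Cfg) (x : M.S × (M.N → List M.Γ))
    (a : A) (h : Inv M k e c x) : Inv M k e ((tm M k e).step c a) (M.step x a) := by
  obtain ⟨h1, h2⟩ := h
  have h3 := fun i => read_inv (M.c + 1) _ _ _ _ (h2 i)
  choose b bs hb h4 h5 h6 h7 h8 using h3
  have hbuf : ∀ i, bufr (M.c + 1) c.q.2 (fun i => c.tape i (c.pos i)) i = b i := by
    intro i
    rw [hb i]
    rfl
  have hx : x = (c.q.1, fun n => b (e n) ++ (bs (e n)).flatten) := by
    refine Prod.ext h1.symm ?_
    funext n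
    have := h5 (e n)
    rw [Equiv.symm_apply_apply] at this
    exact this
  have hst : M.step x a = ((M.step (c.q.1, fun n => b (e n)) a).1,
      fun n => (M.step (c.q.1, fun n => b (e n)) a).2 n ++ (bs (e n)).flatten) := by
    rw [hx]
    refine step_local M _ _ _ _ fun n => ?_
    rcases h7 (e n) with h | h
    · exact Or.inl h
    · right; rw [h]; rfl
  have hlen : ∀ n, ((M.step (c.q.1, fun n => b (e n)) a).2 n).length ≤ 4 * (M.c + 1) := by
    intro n
    have h9 := step_length_le M (c.q.1, fun n => b (e n)) a n
    have h10 := h6 (e n)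
    simp only at h9
    omega
  have hq : ((tm M k e).step c a).q = ((M.step (c.q.1, fun n => b (e n)) a).1,
      fun i => nbuf (M.c + 1) ((M.step (c.q.1, fun n => b (e n)) a).2 (e.symm i))) := by
    show ((tm M k e).δ c.q a _).1 = _
    unfold tm
    simp only [hbuf]
  have hw : ∀ i, ((tm M k e).δ c.q a (fun i => c.tape i (c.pos i))).2 i =
      ncell (M.c + 1) ((M.step (c.q.1, fun n => b (e n)) a).2 (e.symm i)) (c.tape i (c.pos i)) := by
    intro i
    unfold tm
    simp only [hbuf]
  refine ⟨?_, fun i => ?_⟩
  · rw [hq, hst]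
  · have h11 := write_inv (M.c + 1) (Nat.succ_pos _)
      ((M.step (c.q.1, fun n => b (e n)) a).2 (e.symm i)) (bs i) (c.pos i) (c.tape i) (h4 i)
      (hlen _) (h8 i)
    rw [hst, hq]
    simp only [Equiv.apply_symm_apply]
    have hp : ((tm M k e).step c a).pos i = c.pos i +
        (ncell (M.c + 1) ((M.step (c.q.1, fun n => b (e n)) a).2 (e.symm i))
          (c.tape i (c.pos i))).2.toInt := by
      show c.pos i + (((tm M k e).δ c.q a (fun i => c.tape i (c.pos i))).2 i).2.toInt = _
      rw [hw i]
    have ht : ((tm M k e).step c a).tape i = Function.update (c.tape i) (c.pos i)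
        (ncell (M.c + 1) ((M.step (c.q.1, fun n => b (e n)) a).2 (e.symm i))
          (c.tape i (c.pos i))).1 := by
      show Function.update (c.tape i) (c.pos i)
        (((tm M k e).δ c.q a (fun i => c.tape i (c.pos i))).2 i).1 = _
      rw [hw i]
    rw [hp, ht]
    exact h11

theorem inv_run (k : ℕ) (e : M.N ≃ Fin k) (w : List A) :
    ∀ (c : (tm M k e).Cfg) (x : M.S × (M.N → List M.Γ)), Inv M k e c x →
      Inv M k e (w.foldl (tm M k e).step c) (w.foldl M.step x) := by
  induction w with
  | nil => intro c x h; exact h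
  | cons a w ih => intro c x h; exact ih _ _ (inv_step M k e c x a h)

theorem compile_thm : S_COMPILE := by
  intro A M
  have := M.finN
  obtain ⟨k, ⟨e⟩⟩ := Finite.exists_equiv_fin M.N
  refine ⟨tm M k e, fun w => ?_⟩
  have h := inv_run M k e w _ _ (inv_init M k e)
  show M.acc (M.run w).1 = true ↔ _
  unfold RTM.accepts LM.run
  rw [← h.1]
  rfl

end Pool.Agent.Helper10.RT
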