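import Mathlib
import Pool.Agent.Helper38.RT.Defs

/-!
# The concrete machine is a list machine
-/

set_option autoImplicit false

namespace Pool.Agent.Helper10.RT

open Pool.Agent.Helper38.RT

/-- the stacks -/
inductive Ix
  | ML
  | MR
  | V2
  | PL
  | PR
  | G
  | K
  | C
  | E
  | Z
  | TF
  | T0
  | T1
  deriving DecidableEq

instance : Fintype Ix :=
  ⟨{.ML, .MR, .V2, .PL, .PR, .G, .K, .C, .E, .Z, .TF, .T0, .T1}, fun x => by cases x <;> simp⟩

/-- the symbols on the stacks -/
inductive Sm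
  | b (x : Bool)
  | t (x : Tk)
  | u
  deriving DecidableEq

instance : Fintype Sm :=
  ⟨{.b false, .b true, .t .sp, .t .tk, .u}, fun x => by
    rcases x with ⟨⟨⟩⟩ | ⟨⟨⟩⟩ | _ <;> simp⟩

/-- the stacks of a configuration -/
def encL (x : Cf) : Ix → List Sm
  | .ML => x.ML.map .b
  | .MR => x.MR.map .b
  | .V2 => x.V2.map .b
  | .PL => x.PL.map .t
  | .PR => x.PR.map .t
  | .G => x.G.map .t
  | .K => List.replicate x.K .u
  | .C => List.replicate x.C .u
  | .E => List.replicate x.E .u
  | .Z => List.replicate x.Z .u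
  | .TF => x.TF.map .b
  | .T0 => x.T0.map .b
  | .T1 => x.T1.map .b

/-- the finite state -/
abbrev St : Type := Md × Bool × Bool

def st (x : Cf) : St := (x.md, x.role, x.acc)

def db : Option Sm → List Bool
  | some (.b x) => [x]
  | _ => []

def dt : Option Sm → List Tk
  | some (.t x) => [x]
  | _ => []

def dn : Option Sm → ℕ
  | some .u => 1
  | _ => 0

/-- the configuration seen by the finite control -/
def dec (s : St) (t : Ix → Option Sm) : Cf where
  md := s.1
  role := s.2.1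
  acc := s.2.2
  ML := db (t .ML)
  MR := db (t .MR)
  V2 := db (t .V2)
  PL := dt (t .PL)
  PR := dt (t .PR)
  G := dt (t .G)
  K := dn (t .K)
  C := dn (t .C)
  E := dn (t .E)
  Z := dn (t .Z)
  TF := db (t .TF)
  T0 := db (t .T0)
  T1 := db (t .T1)

/-- the top of a counter -/
def m1 : ℕ → ℕ
  | 0 => 0
  | _ + 1 => 1

/-- the tops -/
def topc (x : Cf) : Cf where
  md := x.md
  role := x.role
  acc := x.acc
  ML := x.ML.take 1
  MR := x.MR.take 1
  V2 := x.V2.take 1
  PL := x.PL.take 1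
  PR := x.PR.take 1
  G := x.G.take 1
  K := m1 x.K
  C := m1 x.C
  E := m1 x.E
  Z := m1 x.Z
  TF := x.TF.take 1
  T0 := x.T0.take 1
  T1 := x.T1.take 1

/-- put `y` on the tails of `x` -/
def glue (y x : Cf) : Cf where
  md := y.md
  role := y.role
  acc := y.acc
  ML := y.ML ++ x.ML.tail
  MR := y.MR ++ x.MR.tail
  V2 := y.V2 ++ x.V2.tail
  PL := y.PL ++ x.PL.tail
  PR := y.PR ++ x.PR.tail
  G := y.G ++ x.G.tail
  K := y.K + (x.K - 1)
  C := y.C + (x.C - 1)
  E := y.E + (x.E - 1)
  Z := y.Z + (x.Z - 1)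
  TF := y.TF ++ x.TF.tail
  T0 := y.T0 ++ x.T0.tail
  T1 := y.T1 ++ x.T1.tail

theorem db_map (l : List Bool) : db (l.map Sm.b).head? = l.take 1 := by
  cases l <;> rfl

theorem dt_map (l : List Tk) : dt (l.map Sm.t).head? = l.take 1 := by
  cases l <;> rfl

theorem dn_rep (n : ℕ) : dn (List.replicate n Sm.u).head? = m1 n := by
  cases n <;> rfl

theorem dec_enc (x : Cf) : dec (st x) (fun i => (encL x i).head?) = topc x := by
  unfold dec topc st encL
  simp only [db_map, dt_map, dn_rep]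

theorem encL_glue (y x : Cf) (i : Ix) : encL (glue y x) i = encL y i ++ (encL x i).tail := by
  cases i <;> simp [encL, glue]

theorem take_tail {α : Type} (l : List α) : l.take 1 ++ l.tail = l := by
  cases l <;> rfl

theorem min_tail (n : ℕ) : m1 n + (n - 1) = n := by
  cases n with
  | zero => rfl
  | succ n => show 1 + (n + 1 - 1) = n + 1; omega

theorem glue_topc (x : Cf) : glue (topc x) x = x := by
  unfold glue topc
  simp only [take_tail, min_tail]

theorem cf_ext {x y : Cf} (h1 : x.md = y.md) (h2 : x.role = y.role) (h3 : x.acc = y.acc)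
    (h4 : x.ML = y.ML) (h5 : x.MR = y.MR) (h6 : x.V2 = y.V2) (h7 : x.PL = y.PL)
    (h8 : x.PR = y.PR) (h9 : x.G = y.G) (h10 : x.K = y.K) (h11 : x.C = y.C) (h12 : x.E = y.E)
    (h13 : x.Z = y.Z) (h14 : x.TF = y.TF) (h15 : x.T0 = y.T0) (h16 : x.T1 = y.T1) : x = y := by
  cases x
  cases y
  simp only at *
  subst_vars
  rfl

theorem tt {α : Type} (l : List α) : l = l.take 1 ++ l.tail := (take_tail l).symm

theorem tc {α : Type} (a : α) (l : List α) : a :: l = a :: l.take 1 ++ l.tail := by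
  rw [List.cons_append, take_tail]

theorem mt (n : ℕ) : n = m1 n + (n - 1) := (min_tail n).symm

theorem ms (n : ℕ) : n + 1 = m1 n + 1 + (n - 1) := by
  have := min_tail n
  omega

theorem mz (n : ℕ) : n = 0 + (n + 1 - 1) := by omega

theorem mo (n : ℕ) : n + 1 = 1 + (n + 1 - 1) := by omega

theorem mw (n : ℕ) : n + 1 + 1 = 2 + (n + 1 - 1) := by omega

theorem mp (n : ℕ) : n - 1 = (m1 n - 1) + (n - 1) := by
  cases n with
  | zero => rfl
  | succ n => show n + 1 - 1 = (1 - 1) + (n + 1 - 1); omega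

theorem tg (l : List Tk) : Tk.tk :: Tk.sp :: l.tail =
    Tk.tk :: Tk.sp :: (l.take 1).tail ++ l.tail := by
  cases l <;> rfl

theorem th {α : Type} (l r : List α) : l.head?.toList ++ r =
    ((l.take 1).head?.toList ++ r.take 1) ++ r.tail := by
  rw [List.append_assoc, take_tail]
  cases l <;> rfl

theorem tl {α : Type} (l : List α) : l.tail = (l.take 1).tail ++ l.tail := by
  cases l <;> rfl

theorem pstep_local (stay dn rv : Md) (x : Cf) (a : Bool) :
    pstep stay dn rv { x with acc := a } =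
      glue (pstep stay dn rv { topc x with acc := a }) x := by
  obtain ⟨md, role, acc, ML, MR, V2, PL, PR, G, K, C, E, Z, TF, T0, T1⟩ := x
  rcases PR with _ | ⟨⟨⟩, PR⟩
  · rcases G with _ | ⟨g, G⟩ <;> apply cf_ext <;>
      first | rfl | exact tt _ | exact mt _
  · rcases K with _ | K <;> apply cf_ext <;>
      first | rfl | exact tt _ | exact mt _ | exact tc _ _ | exact mz _
  · apply cf_ext <;> first | rfl | exact tt _ | exact mt _ | exact tc _ _ | exact ms _

theorem arr_local (a : Sym) (x : Cf) : arr a x = glue (arr a (topc x)) x := by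
  obtain ⟨md, role, acc, ML, MR, V2, PL, PR, G, K, C, E, Z, TF, T0, T1⟩ := x
  cases md <;> rcases a with _ | b
  case rd.none =>
    rcases V2 with _ | ⟨v, V2⟩ <;> apply cf_ext <;>
      first | rfl | exact tt _ | exact mt _ | exact tg _
  case rd.some => apply cf_ext <;> first | rfl | exact tt _ | exact mt _ | exact tc _ _
  all_goals
    cases role <;> apply cf_ext <;> first | rfl | exact tt _ | exact mt _ | exact tc _ _

theorem mic_local (x : Cf) : mic x = glue (mic (topc x)) x := by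
  obtain ⟨md, role, acc, ML, MR, V2, PL, PR, G, K, C, E, Z, TF, T0, T1⟩ := x
  cases md
  case rd => apply cf_ext <;> first | rfl | exact tt _ | exact mt _
  case dead => apply cf_ext <;> first | rfl | exact tt _ | exact mt _
  case done => apply cf_ext <;> first | rfl | exact tt _ | exact mt _
  case idle ph =>
    cases ph
    · rcases V2 with _ | ⟨v, V2⟩ <;> apply cf_ext <;>
        first | rfl | exact tt _ | exact mt _ | exact tc _ _
    · cases role <;> rcases T0 with _ | ⟨t0, T0⟩ <;> rcases T1 with _ | ⟨t1, T1⟩ <;>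
        rcases TF with _ | ⟨tf, TF⟩ <;> apply cf_ext <;>
          first | rfl | exact tt _ | exact mt _ | exact tc _ _
  case cmp ph b =>
    rcases MR with _ | ⟨y, MR⟩
    · rcases ML with _ | ⟨z, ML⟩ <;> cases ph <;> apply cf_ext <;>
          first | rfl | exact tt _ | exact mt _ | exact tc _ _
    · by_cases h : y = b
      · subst h
        cases y <;> apply cf_ext <;>
          first | rfl | exact tt _ | exact mt _ | exact ms _ | exact tc _ _
      · cases y <;> cases b
        · exact absurd rfl h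
        · rcases ML with _ | ⟨z, ML⟩ <;> cases ph <;> apply cf_ext <;>
            first | rfl | exact tt _ | exact mt _ | exact tc _ _
        · rcases ML with _ | ⟨z, ML⟩ <;> cases ph <;> apply cf_ext <;>
            first | rfl | exact tt _ | exact mt _ | exact tc _ _
        · exact absurd rfl h
  case pact ph =>
    have h := pstep_local (.idle ph) (.idle ph) (.rev0 ph)
      ⟨.pact ph, role, acc, ML, MR, V2, PL, PR, G, K, C, E, Z, TF, T0, T1⟩
      (acc || (ph && MR.isEmpty))
    have h1 : (MR.take 1).isEmpty = MR.isEmpty := by cases MR <;> rfl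
    show pstep (.idle ph) (.idle ph) (.rev0 ph)
      ⟨.pact ph, role, acc || (ph && MR.isEmpty), ML, MR, V2, PL, PR, G, K, C, E, Z, TF, T0, T1⟩ =
      glue (pstep (.idle ph) (.idle ph) (.rev0 ph)
        ⟨.pact ph, role, acc || (ph && (MR.take 1).isEmpty), ML.take 1, MR.take 1, V2.take 1,
          PL.take 1, PR.take 1, G.take 1, m1 K, m1 C, m1 E, m1 Z, TF.take 1, T0.take 1,
          T1.take 1⟩) _
    rw [h1]
    exact h
  case wait ph b =>
    exact pstep_local (.wait ph b) (.sh ph b) (.rev1 ph b)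
      ⟨.wait ph b, role, acc, ML, MR, V2, PL, PR, G, K, C, E, Z, TF, T0, T1⟩ acc
  case rev0 ph =>
    rcases G with _ | ⟨g, G⟩ <;> apply cf_ext <;>
      first | rfl | exact tt _ | exact mt _ | exact tc _ _
  case rev1 ph b =>
    rcases G with _ | ⟨g, G⟩ <;> apply cf_ext <;>
      first | rfl | exact tt _ | exact mt _ | exact tc _ _
  case sh ph b =>
    rcases E with _ | e
    · apply cf_ext <;> first | rfl | exact tt _ | exact mt _
    · rcases PL with _ | ⟨⟨⟩, PL⟩
      · apply cf_ext <;> first | rfl | exact tt _ | exact mt _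
      · cases ph <;> apply cf_ext <;>
          first | rfl | exact tt _ | exact mt _ | exact tc _ _ | exact mz _ | exact tl _ | exact th _ _
      · apply cf_ext <;>
          first | rfl | exact tt _ | exact mt _ | exact tc _ _ | exact mp _
  case r1 ph b =>
    rcases C with _ | c
    · apply cf_ext <;> first | rfl | exact tt _ | exact mt _
    · apply cf_ext <;> first | rfl | exact tt _ | exact mt _ | exact mz _ | exact ms _
  case r2 ph b =>
    rcases Z with _ | z
    · apply cf_ext <;> first | rfl | exact tt _ | exact mt _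
    · apply cf_ext <;> first | rfl | exact tt _ | exact mt _ | exact mz _ | exact ms _
  case lda =>
    rcases PR with _ | ⟨y, PR⟩
    · rcases G with _ | ⟨g, G⟩ <;> apply cf_ext <;>
        first | rfl | exact tt _ | exact mt _ | exact tc _ _
    · apply cf_ext <;> first | rfl | exact tt _ | exact mt _ | exact tc _ _
  case ldb =>
    rcases G with _ | ⟨g, G⟩ <;> apply cf_ext <;>
      first | rfl | exact tt _ | exact mt _ | exact tc _ _
  case ldc =>
    by_cases h : PL = [] ∧ C = 0 ∧ E = 0 ∧ K = 0 ∧ ML = []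
    · obtain ⟨rfl, rfl, rfl, rfl, rfl⟩ := h
      apply cf_ext <;> first | rfl | exact tt _ | exact mt _
    · have h2 : ¬ (PL.take 1 = [] ∧ m1 C = 0 ∧ m1 E = 0 ∧ m1 K = 0 ∧ ML.take 1 = []) := by
        rintro ⟨h3, h4, h5, h6, h7⟩
        apply h
        refine ⟨?_, ?_, ?_, ?_, ?_⟩
        · cases PL with
          | nil => rfl
          | cons _ _ => simp at h3
        · cases C with
          | zero => rfl
          | succ _ => simp [m1] at h4
        · cases E with
          | zero => rfl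
          | succ _ => simp [m1] at h5
        · cases K with
          | zero => rfl
          | succ _ => simp [m1] at h6
        · cases ML with
          | nil => rfl
          | cons _ _ => simp at h7
      have e1 : mic ⟨.ldc, role, acc, ML, MR, V2, PL, PR, G, K, C, E, Z, TF, T0, T1⟩ =
          ⟨.ldc, role, acc, ML.tail, ML.head?.toList ++ MR, V2, PL.tail,
            PL.head?.toList ++ PR, G, K - 1, C - 1, E - 1, Z, TF, T0, T1⟩ := if_neg h
      have e2 : mic (topc ⟨.ldc, role, acc, ML, MR, V2, PL, PR, G, K, C, E, Z, TF, T0, T1⟩) =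
          ⟨.ldc, role, acc, (ML.take 1).tail, (ML.take 1).head?.toList ++ MR.take 1, V2.take 1,
            (PL.take 1).tail, (PL.take 1).head?.toList ++ PR.take 1, G.take 1, m1 K - 1,
            m1 C - 1, m1 E - 1, m1 Z, TF.take 1, T0.take 1, T1.take 1⟩ := if_neg h2
      rw [e1, e2]
      apply cf_ext <;>
        first | rfl | exact tt _ | exact mt _ | exact mp _ | exact tl _ | exact th _ _

/-- bound of one length -/
def Bd (m n : ℕ) : Prop := n ≤ 1 → m ≤ 2

theorem b0 (n : ℕ) : Bd n n := by unfold Bd; omega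

theorem b1 (n : ℕ) : Bd (n + 1) n := by unfold Bd; omega

theorem b2 (n : ℕ) : Bd n (n + 1) := by unfold Bd; omega

theorem b3 {α : Type} (l : List α) : Bd l.tail.length l.length := by
  unfold Bd; rw [List.length_tail]; omega

theorem b4 {α : Type} (l r : List α) : Bd (l.head?.toList ++ r).length r.length := by
  unfold Bd
  rw [List.length_append]
  cases l <;> simp <;> omega

theorem b5 (n : ℕ) : Bd (n - 1) n := by unfold Bd; omega

theorem b6 (l : List Tk) : Bd (Tk.tk :: Tk.sp :: l.tail).length l.length := by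
  unfold Bd
  simp only [List.length_cons, List.length_tail]
  omega

/-- bounds of all lengths -/
def BB (y x : Cf) : Prop :=
  Bd y.ML.length x.ML.length ∧ Bd y.MR.length x.MR.length ∧ Bd y.V2.length x.V2.length ∧
  Bd y.PL.length x.PL.length ∧ Bd y.PR.length x.PR.length ∧ Bd y.G.length x.G.length ∧
  Bd y.K x.K ∧ Bd y.C x.C ∧ Bd y.E x.E ∧ Bd y.Z x.Z ∧
  Bd y.TF.length x.TF.length ∧ Bd y.T0.length x.T0.length ∧ Bd y.T1.length x.T1.length

theorem arr_bd (a : Sym) (x : Cf) : BB (arr a x) x := by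
  obtain ⟨md, role, acc, ML, MR, V2, PL, PR, G, K, C, E, Z, TF, T0, T1⟩ := x
  cases md <;> rcases a with _ | b
  case rd.none =>
    rcases V2 with _ | ⟨v, V2⟩ <;> refine ⟨?_, ?_, ?_, ?_, ?_, ?_, ?_, ?_, ?_, ?_, ?_, ?_, ?_⟩ <;>
      first | exact b0 _ | exact b2 _ | exact b6 _
  case rd.some =>
    refine ⟨?_, ?_, ?_, ?_, ?_, ?_, ?_, ?_, ?_, ?_, ?_, ?_, ?_⟩ <;> first | exact b0 _ | exact b1 _
  all_goals
    cases role <;> refine ⟨?_, ?_, ?_, ?_, ?_, ?_, ?_, ?_, ?_, ?_, ?_, ?_, ?_⟩ <;>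
      first | exact b0 _ | exact b1 _

theorem pstep_bd (stay dn rv : Md) (x z : Cf) (h : BB x z) (h1 : x.PR = z.PR) (h2 : x.PL = z.PL)
    (h3 : x.K = z.K) (h4 : x.C = z.C) (h5 : x.E = z.E) : BB (pstep stay dn rv x) z := by
  obtain ⟨md, role, acc, ML, MR, V2, PL, PR, G, K, C, E, Z, TF, T0, T1⟩ := x
  obtain ⟨md', role', acc', ML', MR', V2', PL', PR', G', K', C', E', Z', TF', T0', T1'⟩ := z
  obtain ⟨k1, k2, k3, k4, k5, k6, k7, k8, k9, k10, k11, k12, k13⟩ := h
  simp only at h1 h2 h3 h4 h5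
  subst h1 h2 h3 h4 h5
  rcases PR with _ | ⟨⟨⟩, PR⟩
  · rcases G with _ | ⟨g, G⟩ <;> exact ⟨k1, k2, k3, k4, k5, k6, k7, k8, k9, k10, k11, k12, k13⟩
  · rcases K with _ | K
    · exact ⟨k1, k2, k3, k4, k5, k6, k7, k8, k9, k10, k11, k12, k13⟩
    · exact ⟨k1, k2, k3, b1 _, b2 _, k6, b2 _, k8, k9, k10, k11, k12, k13⟩
  · exact ⟨k1, k2, k3, b1 _, b2 _, k6, k7, b1 _, b1 _, k10, k11, k12, k13⟩

theorem bb_refl (x : Cf) : BB x x :=
  ⟨b0 _, b0 _, b0 _, b0 _, b0 _, b0 _, b0 _, b0 _, b0 _, b0 _, b0 _, b0 _, b0 _⟩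

theorem mic_bd (x : Cf) : BB (mic x) x := by
  obtain ⟨md, role, acc, ML, MR, V2, PL, PR, G, K, C, E, Z, TF, T0, T1⟩ := x
  cases md
  case rd => exact bb_refl _
  case dead => exact bb_refl _
  case done => exact bb_refl _
  case idle ph =>
    cases ph
    · rcases V2 with _ | ⟨v, V2⟩ <;>
        refine ⟨?_, ?_, ?_, ?_, ?_, ?_, ?_, ?_, ?_, ?_, ?_, ?_, ?_⟩ <;>
        first | exact b0 _ | exact b1 _ | exact b2 _
    · cases role <;> rcases T0 with _ | ⟨t0, T0⟩ <;> rcases T1 with _ | ⟨t1, T1⟩ <;>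
        rcases TF with _ | ⟨tf, TF⟩ <;>
          refine ⟨?_, ?_, ?_, ?_, ?_, ?_, ?_, ?_, ?_, ?_, ?_, ?_, ?_⟩ <;>
          first | exact b0 _ | exact b1 _ | exact b2 _
  case cmp ph b =>
    rcases MR with _ | ⟨y, MR⟩
    · rcases ML with _ | ⟨z, ML⟩ <;> cases ph <;>
          refine ⟨?_, ?_, ?_, ?_, ?_, ?_, ?_, ?_, ?_, ?_, ?_, ?_, ?_⟩ <;>
          first | exact b0 _ | exact b1 _ | exact b2 _
    · cases y <;> cases b <;> rcases ML with _ | ⟨z, ML⟩ <;> cases ph <;>
          refine ⟨?_, ?_, ?_, ?_, ?_, ?_, ?_, ?_, ?_, ?_, ?_, ?_, ?_⟩ <;>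
          first | exact b0 _ | exact b1 _ | exact b2 _
  case pact ph => exact pstep_bd _ _ _ _ _ (bb_refl _) rfl rfl rfl rfl rfl
  case wait ph b => exact pstep_bd _ _ _ _ _ (bb_refl _) rfl rfl rfl rfl rfl
  case rev0 ph =>
    rcases G with _ | ⟨g, G⟩ <;>
      refine ⟨?_, ?_, ?_, ?_, ?_, ?_, ?_, ?_, ?_, ?_, ?_, ?_, ?_⟩ <;>
      first | exact b0 _ | exact b1 _ | exact b2 _
  case rev1 ph b =>
    rcases G with _ | ⟨g, G⟩ <;>
      refine ⟨?_, ?_, ?_, ?_, ?_, ?_, ?_, ?_, ?_, ?_, ?_, ?_, ?_⟩ <;>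
      first | exact b0 _ | exact b1 _ | exact b2 _
  case sh ph b =>
    rcases E with _ | e
    · exact bb_refl _
    · rcases PL with _ | ⟨⟨⟩, PL⟩
      · exact bb_refl _
      · cases ph <;> refine ⟨?_, ?_, ?_, ?_, ?_, ?_, ?_, ?_, ?_, ?_, ?_, ?_, ?_⟩ <;>
          first | exact b0 _ | exact b1 _ | exact b2 _ | exact b3 _ | exact b4 _ _
      · refine ⟨?_, ?_, ?_, ?_, ?_, ?_, ?_, ?_, ?_, ?_, ?_, ?_, ?_⟩ <;>
          first | exact b0 _ | exact b1 _ | exact b2 _ | exact b5 _
  case r1 ph b =>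
    rcases C with _ | c
    · exact bb_refl _
    · refine ⟨?_, ?_, ?_, ?_, ?_, ?_, ?_, ?_, ?_, ?_, ?_, ?_, ?_⟩ <;>
          first | exact b0 _ | exact b1 _ | exact b2 _
  case r2 ph b =>
    rcases Z with _ | z
    · exact bb_refl _
    · refine ⟨?_, ?_, ?_, ?_, ?_, ?_, ?_, ?_, ?_, ?_, ?_, ?_, ?_⟩ <;>
          first | exact b0 _ | exact b1 _ | exact b2 _
  case lda =>
    rcases PR with _ | ⟨y, PR⟩
    · rcases G with _ | ⟨g, G⟩ <;> exact bb_refl _
    · refine ⟨?_, ?_, ?_, ?_, ?_, ?_, ?_, ?_, ?_, ?_, ?_, ?_, ?_⟩ <;>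
          first | exact b0 _ | exact b1 _ | exact b2 _
  case ldb =>
    rcases G with _ | ⟨g, G⟩ <;>
      refine ⟨?_, ?_, ?_, ?_, ?_, ?_, ?_, ?_, ?_, ?_, ?_, ?_, ?_⟩ <;>
      first | exact b0 _ | exact b1 _ | exact b2 _
  case ldc =>
    by_cases h : PL = [] ∧ C = 0 ∧ E = 0 ∧ K = 0 ∧ ML = []
    · obtain ⟨rfl, rfl, rfl, rfl, rfl⟩ := h
      exact bb_refl _
    · have e1 : mic ⟨.ldc, role, acc, ML, MR, V2, PL, PR, G, K, C, E, Z, TF, T0, T1⟩ =
          ⟨.ldc, role, acc, ML.tail, ML.head?.toList ++ MR, V2, PL.tail,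
            PL.head?.toList ++ PR, G, K - 1, C - 1, E - 1, Z, TF, T0, T1⟩ := if_neg h
      rw [e1]
      exact ⟨b3 _, b4 _ _, b0 _, b3 _, b4 _ _, b0 _, b5 _, b5 _, b5 _, b0 _, b0 _, b0 _, b0 _⟩

theorem db_len (o : Option Sm) : (db o).length ≤ 1 := by
  rcases o with _ | ⟨_⟩ | ⟨_⟩ | _ <;> simp [db]

theorem dt_len (o : Option Sm) : (dt o).length ≤ 1 := by
  rcases o with _ | ⟨_⟩ | ⟨_⟩ | _ <;> simp [dt]

theorem dn_len (o : Option Sm) : dn o ≤ 1 := by
  rcases o with _ | ⟨_⟩ | ⟨_⟩ | _ <;> simp [dn]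

theorem len_two (y : Cf) (s : St) (t : Ix → Option Sm) (h : BB y (dec s t)) (i : Ix) :
    (encL y i).length ≤ 2 := by
  obtain ⟨k1, k2, k3, k4, k5, k6, k7, k8, k9, k10, k11, k12, k13⟩ := h
  cases i
  · simpa [encL] using k1 (db_len _)
  · simpa [encL] using k2 (db_len _)
  · simpa [encL] using k3 (db_len _)
  · simpa [encL] using k4 (dt_len _)
  · simpa [encL] using k5 (dt_len _)
  · simpa [encL] using k6 (dt_len _)
  · simpa [encL] using k7 (dn_len _)
  · simpa [encL] using k8 (dn_len _)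
  · simpa [encL] using k9 (dn_len _)
  · simpa [encL] using k10 (dn_len _)
  · simpa [encL] using k11 (db_len _)
  · simpa [encL] using k12 (db_len _)
  · simpa [encL] using k13 (db_len _)

/-- a function of configurations as a move of the list machine -/
def mv (f : Cf → Cf) (s : St) (t : Ix → Option Sm) : St × (Ix → List Sm) :=
  (st (f (dec s t)), encL (f (dec s t)))

theorem mv_enc (f : Cf → Cf) (hf : ∀ x, f x = glue (f (topc x)) x) (x : Cf) :
    lmove (mv f) (st x, encL x) = (st (f x), encL (f x)) := by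
  unfold lmove mv
  simp only [dec_enc]
  rw [hf x]
  refine Prod.ext rfl ?_
  funext i
  exact (encL_glue _ _ _).symm

/-- the list machine -/
def lm : LM Sym where
  N := Ix
  Γ := Sm
  S := St
  finN := inferInstance
  finΓ := inferInstance
  finS := inferInstance
  c := 100
  start := (.rd, false, false)
  acc s := s.2.2
  inp a := mv (arr a)
  mic := mv mic
  hinp _ s t i := len_two _ s t (arr_bd _ _) i
  hmic s t i := len_two _ s t (mic_bd _) i

theorem iter_mic (n : ℕ) (x : Cf) :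
    (lmove (mv mic))^[n] (st x, encL x) = (st (mic^[n] x), encL (mic^[n] x)) := by
  induction n generalizing x with
  | zero => rfl
  | succ n ih => rw [Function.iterate_succ_apply, mv_enc mic mic_local, ih,
      Function.iterate_succ_apply]

/-- the configuration as a configuration of the list machine -/
def encx (x : Cf) : lm.S × (lm.N → List lm.Γ) := (st x, encL x)

theorem step_enc (a : Sym) (x : Cf) : lm.step (encx x) a = encx (cstep x a) := by
  show (lmove (mv mic))^[100] (lmove (mv (arr a)) (st x, encL x)) = _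
  rw [mv_enc (arr a) (arr_local a), iter_mic]
  rfl

theorem fold_enc (w : List Sym) : ∀ x : Cf,
    w.foldl lm.step (encx x) = encx (w.foldl cstep x) := by
  induction w with
  | nil => intro x; rfl
  | cons a w ih =>
    intro x
    rw [List.foldl_cons, List.foldl_cons, step_enc, ih]

theorem enc_thm : S_ENC := by
  refine ⟨lm, fun w => ?_⟩
  have h := fold_enc w Cf.init
  have h0 : encx Cf.init = (lm.start, fun _ => ([] : List lm.Γ)) := by
    refine Prod.ext rfl ?_
    funext i
    cases i <;> rfl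
  rw [h0] at h
  unfold LM.run
  rw [h]
  rfl

end Pool.Agent.Helper10.RT
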